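import Pool.Agent.Y52.SJ.Stm6

/-!
# Project SJ, PK: the largest symplectic pairing of the polar (helper43, for helper52; pattern of
`Pool.Agent.Y686.SJ.Pol` of helper686)
-/

set_option autoImplicit false

namespace Pool.Agent.Y43.SJ.PK

open Pool.Agent.Y52.SJ

/-- the pairing of `R^{2m}` -/
def pr {m : ℕ} (z y : (Fin m → ℝ) × (Fin m → ℝ)) : ℝ := ∑ i, z.1 i * y.1 i + ∑ i, z.2 i * y.2 i

/-- the polar set -/
def pol {m : ℕ} (K : Set ((Fin m → ℝ) × (Fin m → ℝ))) : Set ((Fin m → ℝ) × (Fin m → ℝ)) :=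
  {y | ∀ z ∈ K, pr z y ≤ 1}

lemma single_sum {m : ℕ} (u : Fin m → ℝ) (i : Fin m) (c : ℝ) :
    ∑ j, (Pi.single i c : Fin m → ℝ) j * u j = c * u i := by
  rw [Finset.sum_eq_single i]
  · rw [Pi.single_eq_same]
  · intro j _ hj
    rw [Pi.single_eq_of_ne hj, zero_mul]
  · intro h
    exact absurd (Finset.mem_univ i) h

lemma norm_single_le {m : ℕ} (i : Fin m) (c : ℝ) : ‖(Pi.single i c : Fin m → ℝ)‖ ≤ |c| := by
  rw [pi_norm_le_iff_of_nonneg (abs_nonneg c)]
  intro j
  by_cases hj : j = i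
  · subst hj
    rw [Pi.single_eq_same, Real.norm_eq_abs]
  · rw [Pi.single_eq_of_ne hj, norm_zero]
    exact abs_nonneg c

lemma pr_left {m : ℕ} (i : Fin m) (c : ℝ) (y : (Fin m → ℝ) × (Fin m → ℝ)) :
    pr (Pi.single i c, 0) y = c * y.1 i := by
  unfold pr
  rw [single_sum]
  simp

lemma pr_right {m : ℕ} (i : Fin m) (c : ℝ) (y : (Fin m → ℝ) × (Fin m → ℝ)) :
    pr (0, Pi.single i c) y = c * y.2 i := by
  unfold pr
  rw [single_sum]
  simp

lemma pr_comm {m : ℕ} (z y : (Fin m → ℝ) × (Fin m → ℝ)) : pr z y = pr y z := by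
  unfold pr
  congr 1
  · exact Finset.sum_congr rfl fun i _ => mul_comm _ _
  · exact Finset.sum_congr rfl fun i _ => mul_comm _ _

lemma pr_neg {m : ℕ} (z y : (Fin m → ℝ) × (Fin m → ℝ)) : pr (-z) y = -pr z y := by
  unfold pr
  simp only [Prod.fst_neg, Prod.snd_neg, Pi.neg_apply, neg_mul, Finset.sum_neg_distrib]
  ring

lemma pol_compact {m : ℕ} {K : Set ((Fin m → ℝ) × (Fin m → ℝ))} {ε : ℝ} (hε : 0 < ε)
    (hK : Metric.ball (0 : (Fin m → ℝ) × (Fin m → ℝ)) ε ⊆ K) : IsCompact (pol K) := by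
  have hin : ∀ (i : Fin m) (c : ℝ), |c| < ε →
      ((Pi.single i c, 0) : (Fin m → ℝ) × (Fin m → ℝ)) ∈ K ∧
      ((0, Pi.single i c) : (Fin m → ℝ) × (Fin m → ℝ)) ∈ K := by
    intro i c hc
    constructor
    · apply hK
      rw [mem_ball_zero_iff, Prod.norm_def, max_lt_iff]
      exact ⟨(norm_single_le i c).trans_lt hc, by simpa using hε⟩
    · apply hK
      rw [mem_ball_zero_iff, Prod.norm_def, max_lt_iff]
      exact ⟨by simpa using hε, (norm_single_le i c).trans_lt hc⟩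
  have hbox : ∀ s : ℝ, ε / 2 * s ≤ 1 → -(ε / 2) * s ≤ 1 → s ∈ Set.Icc (-(2 / ε)) (2 / ε) := by
    intro s h1 h2
    have h3 : s ≤ 2 / ε := by
      rw [le_div_iff₀ hε]
      linarith
    have h4 : -s ≤ 2 / ε := by
      rw [le_div_iff₀ hε]
      linarith
    exact ⟨by linarith, h3⟩
  have habs : |ε / 2| < ε := by
    rw [abs_of_pos (by positivity)]
    linarith
  have habs' : |-(ε / 2)| < ε := by
    rw [abs_neg]
    exact habs
  have h1 : pol K ⊆ (Set.pi Set.univ (fun _ => Set.Icc (-(2 / ε)) (2 / ε))) ×ˢ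
      (Set.pi Set.univ (fun _ => Set.Icc (-(2 / ε)) (2 / ε))) := by
    intro y hy
    refine ⟨fun i _ => ?_, fun i _ => ?_⟩
    · have e1 := hy _ (hin i _ habs).1
      have e2 := hy _ (hin i _ habs').1
      rw [pr_left] at e1 e2
      exact hbox _ e1 e2
    · have e1 := hy _ (hin i _ habs).2
      have e2 := hy _ (hin i _ habs').2
      rw [pr_right] at e1 e2
      exact hbox _ e1 e2
  have h2 : IsClosed (pol K) := by
    have h3 : pol K = ⋂ z ∈ K, {y | pr z y ≤ 1} := by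
      ext u
      simp [pol]
    rw [h3]
    refine isClosed_biInter fun q _ => isClosed_le ?_ continuous_const
    unfold pr
    fun_prop
  exact IsCompact.of_isClosed_subset
    ((isCompact_univ_pi fun i => isCompact_Icc).prod (isCompact_univ_pi fun i => isCompact_Icc))
    h2 h1

theorem main : S_PK := by
  intro m hm K hKo hKc hKb hKn hKs
  obtain ⟨z0, hz0⟩ := hKn
  have h0K : (0 : (Fin m → ℝ) × (Fin m → ℝ)) ∈ K := by
    have h1 := hKc hz0 (hKs z0 hz0) (show (0 : ℝ) ≤ 1 / 2 by norm_num)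
      (show (0 : ℝ) ≤ 1 / 2 by norm_num) (by norm_num)
    have h2 : (1 / 2 : ℝ) • z0 + (1 / 2 : ℝ) • (-z0) = 0 := by
      rw [smul_neg, add_neg_cancel]
    rwa [h2] at h1
  obtain ⟨ε, hε, hball⟩ := Metric.isOpen_iff.1 hKo 0 h0K
  have hcomp : IsCompact (pol K ×ˢ pol K) := (pol_compact hε hball).prod (pol_compact hε hball)
  have hzp : (0 : (Fin m → ℝ) × (Fin m → ℝ)) ∈ pol K := by
    intro z _
    simp [pr]
  obtain ⟨⟨w, w'⟩, ⟨hw, hw'⟩, hmax⟩ := hcomp.exists_isMaxOn ⟨(0, 0), hzp, hzp⟩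
    (f := fun z : ((Fin m → ℝ) × (Fin m → ℝ)) × ((Fin m → ℝ) × (Fin m → ℝ)) => std z.1 z.2) (by
      unfold std
      fun_prop)
  have hmax' : ∀ a ∈ pol K, ∀ b ∈ pol K, std a b ≤ std w w' := by
    intro a ha b hb
    exact hmax (show (a, b) ∈ pol K ×ˢ pol K from ⟨ha, hb⟩)
  have hpos : 0 < std w w' := by
    obtain ⟨R, hR⟩ := hKb.subset_closedBall (0 : (Fin m → ℝ) × (Fin m → ℝ))
    have hcoord : ∀ z ∈ K, ∀ i : Fin m, z.1 i ≤ |R| ∧ z.2 i ≤ |R| := by
      intro z hz i
      have h2 : ‖z‖ ≤ R := by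
        have := hR hz
        rwa [mem_closedBall_zero_iff] at this
      constructor
      · exact (le_abs_self _).trans (((norm_le_pi_norm z.1 i).trans
          ((norm_fst_le z).trans h2)).trans (le_abs_self R))
      · exact (le_abs_self _).trans (((norm_le_pi_norm z.2 i).trans
          ((norm_snd_le z).trans h2)).trans (le_abs_self R))
    have hc : 0 < 1 / (|R| + 1) := by positivity
    have hP1 : ((Pi.single ⟨0, hm⟩ (1 / (|R| + 1)), 0) : (Fin m → ℝ) × (Fin m → ℝ)) ∈ pol K := by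
      intro z hz
      rw [pr_comm, pr_left, one_div_mul_eq_div, div_le_one (by positivity)]
      have := (hcoord z hz ⟨0, hm⟩).1
      linarith
    have hP2 : ((0, Pi.single ⟨0, hm⟩ (1 / (|R| + 1))) : (Fin m → ℝ) × (Fin m → ℝ)) ∈ pol K := by
      intro z hz
      rw [pr_comm, pr_right, one_div_mul_eq_div, div_le_one (by positivity)]
      have := (hcoord z hz ⟨0, hm⟩).2
      linarith
    refine lt_of_lt_of_le ?_ (hmax' _ hP1 _ hP2)
    unfold std
    simp only [Pi.zero_apply, mul_zero, sub_zero]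
    rw [single_sum, Pi.single_eq_same]
    positivity
  have hsq : ∀ y ∈ pol K, ∀ z ∈ K, pr z y ^ 2 ≤ 1 := by
    intro y hy z hz
    have h1 := hy z hz
    have h2 := hy (-z) (hKs z hz)
    rw [pr_neg] at h2
    nlinarith
  refine ⟨w, w', std w w', hpos, rfl, fun z hz => ⟨hsq w hw z hz, hsq w' hw' z hz⟩, ?_⟩
  intro y hy
  by_contra hnot
  obtain ⟨f, c, hf, hc⟩ := geometric_hahn_banach_closed_point hKc.closure isClosed_closure hnot
  have hc0 : 0 < c := by
    have := hf 0 (subset_closure h0K)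
    rwa [map_zero] at this
  have hfs : ∀ t : (Fin m → ℝ) × (Fin m → ℝ), f t =
      ∑ i, t.1 i * f (Pi.single i 1, 0) + ∑ i, t.2 i * f (0, Pi.single i 1) := by
    intro t
    have h1 : t = ∑ i, t.1 i • ((Pi.single i (1 : ℝ), 0) : (Fin m → ℝ) × (Fin m → ℝ)) +
        ∑ i, t.2 i • ((0, Pi.single i (1 : ℝ)) : (Fin m → ℝ) × (Fin m → ℝ)) := by
      apply Prod.ext
      · funext j
        simp only [Prod.fst_add, Prod.fst_sum, Prod.smul_fst, smul_zero, Finset.sum_const_zero,
          add_zero, Finset.sum_apply, Pi.smul_apply, smul_eq_mul]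
        simp [Pi.single_apply]
      · funext j
        simp only [Prod.snd_add, Prod.snd_sum, Prod.smul_snd, smul_zero, Finset.sum_const_zero,
          zero_add, Finset.sum_apply, Pi.smul_apply, smul_eq_mul]
        simp [Pi.single_apply]
    conv_lhs => rw [h1]
    rw [map_add, map_sum, map_sum]
    congr 1
    · exact Finset.sum_congr rfl fun i _ => by rw [map_smul, smul_eq_mul]
    · exact Finset.sum_congr rfl fun i _ => by rw [map_smul, smul_eq_mul]
  obtain ⟨v, hv⟩ : ∃ v : (Fin m → ℝ) × (Fin m → ℝ),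
      v = (fun i => f (Pi.single i 1, 0) / c, fun i => f (0, Pi.single i 1) / c) := ⟨_, rfl⟩
  have hprv : ∀ t : (Fin m → ℝ) × (Fin m → ℝ), pr t v = f t / c := by
    intro t
    rw [hfs t, hv, add_div, Finset.sum_div, Finset.sum_div]
    unfold pr
    congr 1
    · exact Finset.sum_congr rfl fun i _ => by ring
    · exact Finset.sum_congr rfl fun i _ => by ring
  have hvP : v ∈ pol K := by
    intro z hz
    rw [hprv, div_le_one hc0]
    exact (hf z (subset_closure hz)).le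
  have hyP : y ∈ pol K := fun z hz => hy z hz
  have h2 := hmax' v hvP y hyP
  have h3 : pr (((std w w')⁻¹ • y.2, -((std w w')⁻¹ • y.1)) : (Fin m → ℝ) × (Fin m → ℝ)) v =
      (std w w')⁻¹ * std v y := by
    have e : std v y = ∑ i, (v.1 i * y.2 i - v.2 i * y.1 i) := rfl
    rw [e, Finset.sum_sub_distrib, mul_sub, Finset.mul_sum, Finset.mul_sum, sub_eq_add_neg,
      ← Finset.sum_neg_distrib]
    unfold pr
    congr 1
    · exact Finset.sum_congr rfl fun i _ => by
        simp only [Pi.smul_apply, smul_eq_mul]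
        ring
    · exact Finset.sum_congr rfl fun i _ => by
        simp only [Pi.neg_apply, Pi.smul_apply, smul_eq_mul]
        ring
  have h4 : (std w w')⁻¹ * std v y ≤ 1 := by
    rw [inv_mul_le_iff₀ hpos, mul_one]
    exact h2
  rw [← h3, hprv, div_le_one hc0] at h4
  linarith

end Pool.Agent.Y43.SJ.PK
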