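import Pool.Agent.Y52.SJ.Stm2

/-! The explicit area preserving map from the square onto the disc (job Y52-SJ SQ, project of
helper52; proof by helper43). -/

set_option autoImplicit false

namespace Pool.Agent.Y43.SJ.SQ

open Set Filter Topology

/-- twice the area function in the angle -/
noncomputable def F (x : ℝ) : ℝ := x + Real.sin x * Real.cos x

lemma F_cont : Continuous F := by
  unfold F
  fun_prop

lemma F_mono : StrictMono F := by
  intro x y hxy
  unfold F
  have h1 : (y + Real.sin y * Real.cos y) - (x + Real.sin x * Real.cos x) =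
      (y - x) + Real.cos (x + y) * Real.sin (y - x) := by
    rw [Real.cos_add, Real.sin_sub]
    have e1 := Real.sin_sq_add_cos_sq x
    have e2 := Real.sin_sq_add_cos_sq y
    linear_combination (- Real.sin y * Real.cos y) * e1 + (Real.sin x * Real.cos x) * e2
  have h2 : 0 < y - x := by linarith
  have h3 : |Real.sin (y - x)| < y - x := by
    have h4 := Real.abs_sin_lt_abs (x := y - x) (ne_of_gt h2)
    rwa [abs_of_pos h2] at h4
  have h5 : |Real.cos (x + y) * Real.sin (y - x)| ≤ |Real.sin (y - x)| := by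
    rw [abs_mul]
    have := mul_le_mul_of_nonneg_right (Real.abs_cos_le_one (x + y)) (abs_nonneg (Real.sin (y - x)))
    linarith
  have h6 := neg_abs_le (Real.cos (x + y) * Real.sin (y - x))
  linarith

lemma F_bd (x : ℝ) : x - 1 ≤ F x ∧ F x ≤ x + 1 := by
  unfold F
  have h1 := Real.abs_sin_le_one x
  have h2 := Real.abs_cos_le_one x
  have h3 : |Real.sin x * Real.cos x| ≤ 1 := by
    rw [abs_mul]
    exact mul_le_one₀ h1 (abs_nonneg _) h2
  rw [abs_le] at h3
  constructor <;> linarith [h3.1, h3.2]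

lemma F_surj : Function.Surjective F := by
  apply F_cont.surjective
  · exact tendsto_atTop_mono (fun x => (F_bd x).1) (tendsto_atTop_add_const_right _ (-1) tendsto_id)
  · exact tendsto_atBot_mono (fun x => (F_bd x).2) (tendsto_atBot_add_const_right _ 1 tendsto_id)

/-- `F` as a homeomorphism -/
noncomputable def e : ℝ ≃ₜ ℝ := (F_mono.orderIsoOfSurjective F F_surj).toHomeomorph

lemma e_apply (x : ℝ) : e x = F x := rfl

lemma F_symm (y : ℝ) : F (e.symm y) = y := e.apply_symm_apply y

lemma F_deriv (x : ℝ) : HasDerivAt F (2 * Real.cos x ^ 2) x := by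
  have h := (hasDerivAt_id x).add ((Real.hasDerivAt_sin x).mul (Real.hasDerivAt_cos x))
  have h2 : 1 + (Real.cos x * Real.cos x + Real.sin x * -Real.sin x) = 2 * Real.cos x ^ 2 := by
    have e1 := Real.sin_sq_add_cos_sq x
    linear_combination -e1
  rw [h2] at h
  exact h

lemma symm_mem (y : ℝ) (hy : y ∈ Ioo (-(Real.pi / 2)) (Real.pi / 2)) :
    e.symm y ∈ Ioo (-(Real.pi / 2)) (Real.pi / 2) := by
  have h1 : F (Real.pi / 2) = Real.pi / 2 := by simp [F]
  have h2 : F (-(Real.pi / 2)) = -(Real.pi / 2) := by simp [F]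
  constructor
  · rw [← F_mono.lt_iff_lt, F_symm, h2]
    exact hy.1
  · rw [← F_mono.lt_iff_lt, F_symm, h1]
    exact hy.2

lemma cos_symm_pos (y : ℝ) (hy : y ∈ Ioo (-(Real.pi / 2)) (Real.pi / 2)) :
    0 < Real.cos (e.symm y) := Real.cos_pos_of_mem_Ioo (symm_mem y hy)

lemma symm_deriv (y : ℝ) (hy : y ∈ Ioo (-(Real.pi / 2)) (Real.pi / 2)) :
    HasDerivAt (fun z => e.symm z) (2 * Real.cos (e.symm y) ^ 2)⁻¹ y := by
  apply HasDerivAt.of_local_left_inverse (f := F)
  · exact e.symm.continuous.continuousAt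
  · exact F_deriv _
  · have := cos_symm_pos y hy
    positivity
  · exact Filter.Eventually.of_forall F_symm

lemma symm_smooth (y : ℝ) (hy : y ∈ Ioo (-(Real.pi / 2)) (Real.pi / 2)) :
    ContDiffAt ℝ ((⊤ : ℕ∞) : WithTop ℕ∞) (fun z => e.symm z) y := by
  have h := e.toOpenPartialHomeomorph.contDiffAt_symm_deriv (n := ((⊤ : ℕ∞) : WithTop ℕ∞))
    (f₀' := 2 * Real.cos (e.symm y) ^ 2) (a := y) (by
      have := cos_symm_pos y hy
      positivity) (by simp) (F_deriv _) (by
      have : ContDiff ℝ ((⊤ : ℕ∞) : WithTop ℕ∞) F := by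
        unfold F
        fun_prop
      exact this.contDiffAt)
  exact h

theorem main : Pool.Agent.Y52.SJ.S_SQ := by
  intro l R hl hR hlR
  have hc : ∀ q ∈ Ioo (-l) l, 2 * l / R ^ 2 * q ∈ Ioo (-(Real.pi / 2)) (Real.pi / 2) := by
    intro q hq
    have h1 : 2 * l / R ^ 2 * l = Real.pi / 2 := by
      field_simp
      linarith
    have h2 : 0 < 2 * l / R ^ 2 := by positivity
    constructor
    · have := mul_lt_mul_of_pos_left hq.1 h2
      linarith
    · have := mul_lt_mul_of_pos_left hq.2 h2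
      linarith
  have hlin : ContDiff ℝ ((⊤ : ℕ∞) : WithTop ℕ∞) (fun q : ℝ => 2 * l / R ^ 2 * q) := by fun_prop
  have hG : ∀ q ∈ Ioo (-l) l, ContDiffAt ℝ ((⊤ : ℕ∞) : WithTop ℕ∞)
      (fun q => e.symm (2 * l / R ^ 2 * q)) q := by
    intro q hq
    exact (symm_smooth _ (hc q hq)).comp q hlin.contDiffAt
  refine ⟨fun q => R * Real.sin (e.symm (2 * l / R ^ 2 * q)),
    fun q => R * Real.cos (e.symm (2 * l / R ^ 2 * q)) / l, ?_, ?_, ?_, ?_⟩
  · intro q hq
    apply ContDiffAt.contDiffWithinAt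
    exact contDiffAt_const.mul (Real.contDiff_sin.contDiffAt.comp q (hG q hq))
  · intro q hq
    apply ContDiffAt.contDiffWithinAt
    exact (contDiffAt_const.mul (Real.contDiff_cos.contDiffAt.comp q (hG q hq))).div_const l
  · intro q hq q' hq' h
    have h1 : Real.sin (e.symm (2 * l / R ^ 2 * q)) = Real.sin (e.symm (2 * l / R ^ 2 * q')) :=
      mul_left_cancel₀ hR.ne' h
    have h2 := Real.injOn_sin (Ioo_subset_Icc_self (symm_mem _ (hc q hq)))
      (Ioo_subset_Icc_self (symm_mem _ (hc q' hq'))) h1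
    have h3 := e.symm.injective h2
    have h4 : 2 * l / R ^ 2 ≠ 0 := by positivity
    exact mul_left_cancel₀ h4 h3
  · intro q hq
    have hcos := cos_symm_pos _ (hc q hq)
    refine ⟨by positivity, ?_, ?_⟩
    · have h1 := (symm_deriv _ (hc q hq)).comp q ((hasDerivAt_id q).const_mul (2 * l / R ^ 2))
      have h2 := (h1.sin).const_mul R
      have h3 : R * (Real.cos (e.symm (2 * l / R ^ 2 * q)) *
          ((2 * Real.cos (e.symm (2 * l / R ^ 2 * q)) ^ 2)⁻¹ * (2 * l / R ^ 2 * 1))) =
          (R * Real.cos (e.symm (2 * l / R ^ 2 * q)) / l)⁻¹ := by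
        generalize e.symm (2 * l / R ^ 2 * q) = θ at hcos ⊢
        field_simp
      exact h2.congr_deriv h3
    · have e1 := Real.sin_sq_add_cos_sq (e.symm (2 * l / R ^ 2 * q))
      show (R * Real.sin (e.symm (2 * l / R ^ 2 * q))) ^ 2 +
        l ^ 2 * (R * Real.cos (e.symm (2 * l / R ^ 2 * q)) / l) ^ 2 = R ^ 2
      generalize e.symm (2 * l / R ^ 2 * q) = θ at e1 ⊢
      field_simp
      linarith

end Pool.Agent.Y43.SJ.SQ
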